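import Pool.Agent.Helper34.GX.Both
import Pool.Graph.R_pool_sql_team_seeded_64922ed1.X28.SX.StepI

/-!
# Splittings `n = k + m` with `k` and `m` PRIME and conditions on `p_k` and `p_{p_m}`, in all residue classes to large moduli

The question asks, for every `n > 2`, for `n = k + m` such that `p_k + 2` and `p_{p_m} + 2` are primes. Here the indices
`k` and `m` are moreover primes themselves, so that `p_k` is a prime with a prime index, and `m` is the prime index of the
prime `p_m`, which is the index of `p_{p_m}`. There is a set `D` of at most `(log x) ^ c` integers, all of them larger than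
any given power of `log x`, such that for every modulus `r ≤ x ^ (5 / 6 - ρ)` which is not divisible by a member of `D`, in
EVERY residue class modulo `r` all but at most `x / (r (log x) ^ A)` of the even integers `n` in `(x / 2, x]` have the
following property (in the classes `a` modulo `r` with `(a, r) ≤ (log x) ^ T` this holds for every `r ≤ x ^ (5 / 6 - ρ)`).
In every window `(u, v]` of length at least `n / (log n) ^ W`, for almost all vectors of shifts `t_1, …, t_s` in long
windows of multiples of a small primorial, there are at least `(1 - δ) / 12` times the expected number of primes `k` such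
that `m = n - k` is prime and all the numbers `p_k + t_i` (`i` in a given set `I`) and `p_{p_m} + t_i` (`i` not in `I`) are
primes.

Definition used (in `Pool.Agent.H560R3.GB`): `sing n = 2 C₂ ∏_{p ∣ n, p > 2} (p - 1) / (p - 2)`,
`C₂ = ∏_{p > 2} (1 - 1 / (p - 1) ^ 2)`. From Mathlib: `primorial y`: the product of the primes `≤ y`;
`Nat.nth Nat.Prime k`: the prime `p_{k + 1}`.

The proof combines the lower bound for the number of Goldbach representations in windows, `Helper34/GX` (hand-in
`MP_92f640_nt.ModuliUpToFiveSixths`), with the theorem `stepI` of the library (arbitrary dense index sets).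
-/

set_option autoImplicit false

namespace Pool.Agent.Results.MP_04e9b2_nt.BothIndicesPrime

open Finset
open Pool.Agent.H560R3.GB (sing)

/-- the `k`-th prime, `p 1 = 2` -/
noncomputable def p (k : ℕ) : ℕ := Nat.nth Nat.Prime (k - 1)

/-- the product of `1 - 1/q` over the primes `q ≤ y` -/
noncomputable def V (y : ℕ) : ℝ := ∏ q ∈ (Icc 1 y).filter Nat.Prime, (1 - 1 / (q : ℝ))

open Classical in
/-- the primes `k` in `(u, v]` for which `m = n - k` is prime, and all the numbers `p_k + t i`, `i ∈ I`, and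
`p_{p_m} + t i`, `i ∉ I`, are prime -/
noncomputable def Sol (n u v : ℕ) {s : ℕ} (I : Finset (Fin s)) (t : Fin s → ℕ) : Finset ℕ :=
  (Ioc u v).filter (fun k => k.Prime ∧ (n - k).Prime ∧
    ∀ i, (i ∈ I → (p k + t i).Prime) ∧ (i ∉ I → (p (p (n - k)) + t i).Prime))

open Classical in
/-- The property of `n`: for every window `(u, v]` in `(0, n]` with `v - u ≥ n / (log n) ^ W`, every `y` between
`K₀ log log x` and `K₁ log log x`, with `M` the product of the primes `≤ y`, every set `I` of indices, and all windows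
`(h₀_i, h₀_i + H_i]` with `M (h₀_i + H_i) ≤ x` and `M H_i ≥ x / (log x) ^ C`: for all but at most `δ H_1 ⋯ H_s` of the
vectors `h` with `1 ≤ h_i ≤ H_i` there are at least `((1 - δ) / 12) sing n (v - u) / ((log n)² (V y log x) ^ s)` primes `k`
in `(u, v]` such that `m = n - k` is prime and, with `t_i = M (h₀_i + h_i)`, all the numbers `p_k + t_i` (`i ∈ I`) and
`p_{p_m} + t_i` (`i ∉ I`) are primes. -/
def Rich (x s W C K₀ K₁ : ℕ) (δ : ℝ) (n : ℕ) : Prop :=
  ∀ u v : ℕ, u < v → v ≤ n → (n : ℝ) / Real.log n ^ W ≤ (v : ℝ) - u →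
  ∀ y : ℕ, K₀ * Real.log (Real.log x) ≤ y → y ≤ K₁ * Real.log (Real.log x) →
  ∀ I : Finset (Fin s), ∀ h₀ H : Fin s → ℕ, (∀ i, primorial y * (h₀ i + H i) ≤ x) →
    (∀ i, (x : ℝ) ≤ primorial y * H i * Real.log x ^ C) →
    (((Fintype.piFinset (fun i => Icc 1 (H i))).filter (fun h : Fin s → ℕ =>
      ((Sol n u v I (fun i => primorial y * (h₀ i + h i))).card : ℝ) <
        (1 - δ) / 12 * (sing n * ((v : ℝ) - u) / (Real.log n ^ 2 * (V y * Real.log x) ^ s)))).card : ℝ) ≤
      δ * ∏ i, (H i : ℝ)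

/-- The even integers `n ≡ a (mod r)` with `x / 2 < n ≤ x` without this property. -/
def exceptional (x s W C K₀ K₁ : ℕ) (δ : ℝ) (r : ℕ) (a : ℤ) : Set ℕ :=
  {n : ℕ | x < 2 * n ∧ n ≤ x ∧ 2 ∣ n ∧ (n : ℤ) ≡ a [ZMOD r] ∧ ¬ Rich x s W C K₀ K₁ δ n}

/-- For all `ρ > 0`, `0 < δ ≤ 1`, `A`, `T`, `W`, `C`, `s` there are `c` and `K₀` such that for all `B`, `K₁` and all
sufficiently large integers `x` there is a finite set `D` of at most `(log x) ^ c` integers, all of them larger than
`(log x) ^ B`, such that for every `1 ≤ r ≤ x ^ (5 / 6 - ρ)` and every integer `a`, if `gcd(a, r) ≤ (log x) ^ T` or `r` is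
not divisible by a member of `D`, all but at most `x / (r (log x) ^ A)` of the even integers `n ≡ a (mod r)` in
`(x / 2, x]` have the property `Rich`. -/
theorem result (ρ δ : ℝ) (hρ : 0 < ρ) (hδ : 0 < δ) (hδ1 : δ ≤ 1) (A T W C s : ℕ) :
    ∃ c K₀ : ℕ, ∀ B K₁ : ℕ, ∃ x₀ : ℕ, ∀ x : ℕ, x₀ ≤ x → ∃ D : Finset ℕ, (D.card : ℝ) ≤ Real.log x ^ c ∧
      (∀ d ∈ D, Real.log x ^ B < (d : ℝ)) ∧
      ∀ r : ℕ, 1 ≤ r → (r : ℝ) ≤ (x : ℝ) ^ (5 / 6 - ρ) → ∀ a : ℤ,
        ((Int.gcd a r : ℝ) ≤ Real.log x ^ T ∨ ∀ d ∈ D, ¬ d ∣ r) →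
        (exceptional x s W C K₀ K₁ δ r a).Finite ∧
        ((exceptional x s W C K₀ K₁ δ r a).ncard : ℝ) ≤ x / (r * Real.log x ^ A) := by
  classical
  obtain ⟨c, h⟩ := Pool.Agent.Helper34.GXR.class_few_both4 (Pool.Agent.Helper34.GX.WinM W) W
    ⟨0, fun _ _ _ h => h⟩ ρ hρ A T
  obtain ⟨K₀, hK₀⟩ := Pool.Agent.X28.SX.stepI (ι := Fin s) (fun _ => 1) (fun _ => Or.inl rfl) (W + 3) 5 C δ hδ hδ1
  refine ⟨c, K₀, fun B K₁ => ?_⟩
  obtain ⟨x₁, h⟩ := h B
  obtain ⟨n1, hn1⟩ := hK₀ K₁
  obtain ⟨n2a, hn2a⟩ := Pool.Agent.X28.SX.nth_le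
  obtain ⟨n2b, hn2b⟩ := Pool.Agent.X28.SX.nth_nth_le
  obtain ⟨n2, hn2⟩ : ∃ n2, n2 = max n2a n2b := ⟨_, rfl⟩
  obtain ⟨n3, hn3⟩ := Pool.Agent.H373R2.T7.ev_L' 24
  refine ⟨max (max n1 n2) (max n3 (⌈x₁⌉₊ + 1)), fun x hx => ?_⟩
  have b1 : n1 ≤ x := (le_max_left _ _).trans ((le_max_left _ _).trans hx)
  have b2 : n2 ≤ x := (le_max_right _ _).trans ((le_max_left _ _).trans hx)
  have b3 : n3 ≤ x := (le_max_left _ _).trans ((le_max_right _ _).trans hx)
  have b4 : ⌈x₁⌉₊ + 1 ≤ x := (le_max_right _ _).trans ((le_max_right _ _).trans hx)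
  have hxx1 : x₁ ≤ (x : ℝ) := by
    have h1 : ⌈x₁⌉₊ ≤ x := by omega
    exact (Nat.le_ceil x₁).trans (by exact_mod_cast h1)
  have hx1 : 1 ≤ x := by omega
  have hL24 := hn3 x b3
  obtain ⟨D, hD1, hD2, hD⟩ := h x hxx1
  refine ⟨D, hD1, hD2, fun r hr hrx a ha => ?_⟩
  obtain ⟨f1, f2⟩ := hD r hr hrx a ha
  have hsub : exceptional x s W C K₀ K₁ δ r a ⊆ {n : ℕ | 0 < n ∧ (n : ℝ) ≤ (x : ℝ) ∧ 2 ∣ n ∧ (n : ℤ) ≡ a [ZMOD r] ∧
      ¬ Pool.Agent.Helper34.GX.WinM W n} := by
    rintro N ⟨e1, e2, e3, e4, e5⟩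
    refine ⟨by omega, by exact_mod_cast e2, e3, e4, fun hw => e5 ?_⟩
    intro u v huv hvN hlen y hy1 hy2 I h₀ H hH1 hH2
    obtain ⟨J, hJ⟩ : ∃ J, J = (Ioc u v).filter (fun q => q.Prime ∧ (N - q).Prime) := ⟨_, rfl⟩
    have hJc : 1 / 12 * (sing N * ((v : ℝ) - u) / Real.log N ^ 2) ≤ (J.card : ℝ) := by
      have h1 := hw u v huv hvN hlen
      rw [hJ]
      exact h1
    have hxr : (0 : ℝ) < x := by exact_mod_cast hx1
    have hNr : (x : ℝ) < 2 * N := by exact_mod_cast e1
    have hNx : (N : ℝ) ≤ x := by exact_mod_cast e2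
    have hN0 : (0 : ℝ) < N := by linarith
    have hL0 : 0 < Real.log x := by linarith
    have hLN : Real.log N ≤ Real.log x := Real.log_le_log hN0 hNx
    have hLN1 : 1 ≤ Real.log N := by
      have h1 : Real.log ((x : ℝ) / 2) ≤ Real.log N := Real.log_le_log (by positivity) (by linarith)
      rw [Real.log_div hxr.ne' (by norm_num)] at h1
      have h2 := Real.log_two_lt_d9
      linarith
    have hs1 : 1 ≤ sing N := Pool.Agent.R460.GS.one_le_sing N
    have hd : (x : ℝ) ≤ J.card * Real.log x ^ (W + 3) := by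
      have h1 : (N : ℝ) / Real.log x ^ W ≤ (v : ℝ) - u := by
        refine le_trans ?_ hlen
        exact div_le_div_of_nonneg_left hN0.le (by positivity) (pow_le_pow_left₀ (by linarith) hLN W)
      have h2 : (N : ℝ) / Real.log x ^ W / Real.log x ^ 2 ≤ sing N * ((v : ℝ) - u) / Real.log N ^ 2 := by
        have h3 : 0 ≤ (N : ℝ) / Real.log x ^ W := by positivity
        apply div_le_div₀
        · nlinarith
        · nlinarith
        · positivity
        · exact pow_le_pow_left₀ (by linarith) hLN 2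
      have h3 : (N : ℝ) / Real.log x ^ W / Real.log x ^ 2 * Real.log x ^ (W + 3) = N * Real.log x := by
        rw [pow_add]
        field_simp
      have h4 : (x : ℝ) ≤ 1 / 12 * (N * Real.log x) := by nlinarith
      have h5 : 0 < Real.log x ^ (W + 3) := by positivity
      calc (x : ℝ) ≤ 1 / 12 * (N * Real.log x) := h4
        _ = 1 / 12 * ((N : ℝ) / Real.log x ^ W / Real.log x ^ 2) * Real.log x ^ (W + 3) := by
            rw [mul_assoc, h3]
        _ ≤ 1 / 12 * (sing N * ((v : ℝ) - u) / Real.log N ^ 2) * Real.log x ^ (W + 3) := by gcongr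
        _ ≤ J.card * Real.log x ^ (W + 3) := mul_le_mul_of_nonneg_right hJc h5.le
    have hJm : ∀ q ∈ J, 1 ≤ q ∧ 1 ≤ N - q ∧ q ≤ N := by
      intro q hq
      rw [hJ, mem_filter, mem_Ioc] at hq
      have h1 := hq.2.1.one_le
      have h2 := hq.2.2.one_le
      omega
    have b2a : n2a ≤ x := (le_max_left _ _).trans (by rw [← hn2]; exact b2)
    have b2b : n2b ≤ x := (le_max_right _ _).trans (by rw [← hn2]; exact b2)
    have hp1 : ∀ k, 1 ≤ p k := fun k => (Nat.prime_nth_prime _).one_le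
    have hL1 : (1 : ℝ) ≤ Real.log x := by linarith
    have key := hn1 x b1 y hy1 hy2 J hd (fun i q => if i ∈ I then p q else p (p (N - q))) (fun i q hq q' hq' heq => by
        obtain ⟨g1, g2, g3⟩ := hJm q hq
        obtain ⟨g1', g2', g3'⟩ := hJm q' hq'
        simp only at heq
        by_cases hi : i ∈ I
        · rw [if_pos hi, if_pos hi] at heq
          exact Pool.Agent.X28.SX.nth_inj' g1 g1' heq
        · rw [if_neg hi, if_neg hi] at heq
          have g4 := Pool.Agent.X28.SX.nth_inj' (hp1 _) (hp1 _) heq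
          have g5 := Pool.Agent.X28.SX.nth_inj' g2 g2' g4
          omega)
      (fun i q hq => by
        obtain ⟨g1, g2, g3⟩ := hJm q hq
        by_cases hi : i ∈ I
        · rw [if_pos hi]
          refine ⟨Nat.prime_nth_prime _, (hn2a x b2a q (by omega)).trans ?_⟩
          exact mul_le_mul_of_nonneg_left (pow_le_pow_right₀ hL1 (by norm_num)) hxr.le
        · rw [if_neg hi]
          exact ⟨Nat.prime_nth_prime _, hn2b x b2b (N - q) (by omega)⟩)
      h₀ H (fun i => by rw [pow_one]; exact hH1 i) (fun i => by rw [pow_one]; exact hH2 i)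
    simp only [prod_const, card_univ, Fintype.card_fin] at key
    have hVz : Pool.Agent.H373R2.T7.Vz y = V y := rfl
    rw [hVz] at key
    have e1' : V y * (((1 : ℕ) : ℝ) * Real.log x) = V y * Real.log x := by push_cast; ring
    rw [e1'] at key
    refine le_trans ?_ key
    rw [Nat.cast_le]
    apply card_le_card
    intro h hh
    rw [mem_filter] at hh ⊢
    refine ⟨hh.1, ?_⟩
    have h1 := hh.2
    have h2 : (Sol N u v I (fun i => primorial y * (h₀ i + h i))).card =
        (J.filter (fun j => ∀ i, ((if i ∈ I then p j else p (p (N - j))) ^ 1 +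
          primorial y * (h₀ i + h i)).Prime)).card := by
      rw [hJ, filter_filter]
      unfold Sol
      congr 1
      apply filter_congr
      intro q _
      rw [and_assoc]
      apply and_congr_right
      intro _
      apply and_congr_right
      intro _
      apply forall_congr'
      intro i
      by_cases hi : i ∈ I
      · simp [hi]
      · simp [hi]
    rw [h2] at h1
    refine lt_of_le_of_lt (le_of_eq ?_) (lt_of_lt_of_le h1 ?_)
    · congr
    have hV0 : 0 < V y := by rw [← hVz]; exact Pool.Agent.H373R2.T7.Vz_pos y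
    have hVL : 0 < (V y * Real.log x) ^ s := by positivity
    have h3 : (1 - δ) / 12 * (sing N * ((v : ℝ) - u) / (Real.log N ^ 2 * (V y * Real.log x) ^ s)) =
        (1 - δ) * (1 / 12 * (sing N * ((v : ℝ) - u) / Real.log N ^ 2) / (V y * Real.log x) ^ s) := by
      rw [← div_div]
      ring
    rw [h3]
    apply mul_le_mul_of_nonneg_left _ (by linarith)
    exact div_le_div_of_nonneg_right hJc hVL.le
  refine ⟨f1.subset hsub, le_trans ?_ f2⟩
  exact_mod_cast Set.ncard_le_ncard hsub f1

end Pool.Agent.Results.MP_04e9b2_nt.BothIndicesPrime
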