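import Pool.Agent.Helper12.CS.Main
import Pool.Graph.R_pool_sql_team_seeded_843ab51a.Helper29.BE.Dens

/-!
# `n = k + m` with `p_k + h` and `p_{p_m} + h` both prime: the SAME shift for both conditions

The question asks for `p_k + 2` and `p_{p_m} + 2` to be prime, with the same shift `2` in both conditions. Here `2` is
replaced by other even numbers `h`, but the shift is still the same in both conditions (or, more generally, the two
shifts have any prescribed even difference). This holds for EVERY large `n` and for arbitrary sets `K` of summands `k`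
which are not too sparse.
-/

set_option autoImplicit false

open Finset Filter Topology

namespace Pool.Agent.Results.MP_04e9b2_nt.CommonShift

/-- The `j`-th prime: `p 1 = 2`, `p 2 = 3`, `p 3 = 5`, and so on. -/
noncomputable def p (j : ℕ) : ℕ := Nat.nth Nat.Prime (j - 1)

/-- The `k ∈ K` for which `p_k + x` and `p_{p_m} + y` are both prime, where `m = n - k`. -/
noncomputable def Good (n : ℕ) (K : Finset ℕ) (x y : ℕ) : Finset ℕ :=
  K.filter fun k => (p k + x).Prime ∧ (p (p (n - k)) + y).Prime

open Pool.Agent.Helper29.BE (P P_prime P_mono P_inj P_odd P_strict le_P tLog)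

lemma p_eq : p = P := rfl

lemma ev (A : ℕ) : ∀ᶠ n : ℕ in atTop, 8 ≤ Real.log n ∧ 1 ≤ Real.log (Real.log (Real.log n)) ∧
    Real.log n ^ A ≤ n ∧ 8 * Real.log n ^ A ≤ n := by
  have h1 := (isLittleO_log_rpow_rpow_atTop (s := (1 : ℝ)) (A : ℝ) (by norm_num)).bound
    (by norm_num : (0 : ℝ) < 1 / 8)
  have h2 := (tendsto_natCast_atTop_atTop (R := ℝ)).eventually h1
  have hlll : Tendsto (fun x : ℕ => Real.log (Real.log (Real.log (x : ℝ)))) atTop atTop :=
    Real.tendsto_log_atTop.comp (Real.tendsto_log_atTop.comp tLog)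
  filter_upwards [h2, tLog.eventually_ge_atTop 8, hlll.eventually_ge_atTop 1] with n h3 h4 h5
  rw [Real.norm_of_nonneg (Real.rpow_nonneg (by linarith) _),
    Real.norm_of_nonneg (by positivity), Real.rpow_one, Real.rpow_natCast] at h3
  have : (0 : ℝ) ≤ Real.log n ^ A := by positivity
  exact ⟨h4, h5, by linarith, by linarith⟩

/-- the two cases are the same up to the order of `a` and `b` -/
lemma core (A : ℕ) : ∃ c : ℝ, 0 < c ∧ ∃ M : ℕ, ∀ᶠ n : ℕ in atTop, ∀ H : ℕ, n ≤ H → (H : ℝ) ≤ n * Real.log n ^ A →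
    ∀ (K T : Finset ℕ) (a b : ℕ → ℕ), (n : ℝ) ≤ #K * Real.log n ^ A → T ⊆ K → #K ≤ 4 * #T →
    (∀ t ∈ T, a t % 2 = 1 ∧ b t % 2 = 1 ∧ a t < b t ∧ b t ≤ H) → Set.InjOn a T → Set.InjOn b T →
    Set.InjOn (fun t => b t - a t) T →
    c * H / Real.log (Real.log (Real.log n)) ^ M ≤
      #{h ∈ Icc 1 H | Even h ∧ c * #K / Real.log n ^ 2 ≤ (#{t ∈ K | (a t + h).Prime ∧ (b t + h).Prime} : ℝ)} := by
  classical
  obtain ⟨c, hc, M, hm⟩ := Pool.Agent.Helper12.CS.main (2 * A + 1)
  refine ⟨min (c / 2 ^ M) (c / 16), by positivity, M, ?_⟩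
  obtain ⟨H₀, hm⟩ := eventually_atTop.1 hm
  filter_upwards [ev A, eventually_ge_atTop H₀, eventually_ge_atTop 3] with n ⟨h8, hl3, hA, hA8⟩ hn hn3
  intro H hnH hHn K T a b hK hTK hKT hT ha hb hd
  have hn0 : (0 : ℝ) < n := by
    have : 0 < n := by omega
    exact_mod_cast this
  have hnH' : (n : ℝ) ≤ H := by exact_mod_cast hnH
  have hlogle : Real.log n ≤ Real.log H := Real.log_le_log hn0 hnH'
  have hHsq : (H : ℝ) ≤ (n : ℝ) ^ 2 := by
    calc (H : ℝ) ≤ n * Real.log n ^ A := hHn
      _ ≤ n * n := by gcongr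
      _ = (n : ℝ) ^ 2 := by ring
  have hlog2 : Real.log H ≤ 2 * Real.log n := by
    have h1 := Real.log_le_log (by linarith) hHsq
    rw [Real.log_pow] at h1
    exact_mod_cast h1
  have hl : Real.log 2 ≤ 1 := by
    have := Real.log_two_lt_d9
    linarith
  set L := Real.log (n : ℝ) with hL
  set LH := Real.log (H : ℝ) with hLH
  have hLL : 1 ≤ Real.log L := by
    have h1 : 0 < Real.log L := by
      apply Real.log_pos
      linarith
    by_contra hcon
    push Not at hcon
    have h2 := Real.log_nonpos h1.le hcon.le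
    linarith
  have hloglog : Real.log LH ≤ 2 * Real.log L := by
    have h1 : Real.log LH ≤ Real.log (2 * L) := Real.log_le_log (by linarith) hlog2
    rw [Real.log_mul (by norm_num) (by linarith)] at h1
    linarith
  have hloglog' : Real.log L ≤ Real.log LH := Real.log_le_log (by linarith) hlogle
  have hlll : Real.log (Real.log LH) ≤ 2 * Real.log (Real.log L) := by
    have h1 : Real.log (Real.log LH) ≤ Real.log (2 * Real.log L) := Real.log_le_log (by linarith) hloglog
    rw [Real.log_mul (by norm_num) (by linarith)] at h1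
    linarith
  have hlll0 : 0 < Real.log (Real.log LH) := by
    have h1 := Real.log_le_log (by linarith) hloglog'
    linarith
  have hKT' : (#K : ℝ) ≤ 4 * #T := by exact_mod_cast hKT
  have hmain := hm H (by omega) T a b hT ha hb hd (by
    have h1 : L ^ A ≤ LH ^ A := pow_le_pow_left₀ (by linarith) hlogle _
    have h2 : (0 : ℝ) ≤ LH ^ A := by
      have : 0 ≤ LH := by linarith
      positivity
    calc (H : ℝ) ≤ n * L ^ A := hHn
      _ ≤ (#K * L ^ A) * L ^ A := by gcongr
      _ ≤ ((4 * #T) * LH ^ A) * LH ^ A := by gcongr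
      _ ≤ ((LH * #T) * LH ^ A) * LH ^ A := by
          have : (4 : ℝ) ≤ LH := by linarith
          gcongr
      _ = #T * LH ^ (2 * A + 1) := by ring)
  have hT0 : 0 < #T := by
    by_contra hcon
    have h1 : #T = 0 := by omega
    have h2 : #K = 0 := by omega
    rw [h2] at hK
    simp at hK
    omega
  have hT0' : (0 : ℝ) < #T := by exact_mod_cast hT0
  have hH0 : (0 : ℝ) ≤ H := Nat.cast_nonneg _
  calc min (c / 2 ^ M) (c / 16) * H / Real.log (Real.log L) ^ M
      ≤ (c / 2 ^ M) * H / Real.log (Real.log L) ^ M := by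
        gcongr
        exact min_le_left _ _
    _ = c * H / (2 * Real.log (Real.log L)) ^ M := by
        rw [mul_pow]
        field_simp
    _ ≤ c * H / Real.log (Real.log LH) ^ M := by
        gcongr
    _ ≤ _ := hmain
    _ ≤ _ := by
        apply Nat.cast_le.2
        apply card_le_card
        intro h hh
        rw [mem_filter] at hh ⊢
        have hpos : 0 < c * #T / LH ^ 2 := by
          have : 0 < LH := by linarith
          positivity
        have hcard : (0 : ℝ) < #{t ∈ T | (a t + h).Prime ∧ (b t + h).Prime} := lt_of_lt_of_le hpos hh.2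
        have hcard' : 0 < #{t ∈ T | (a t + h).Prime ∧ (b t + h).Prime} := by exact_mod_cast hcard
        refine ⟨hh.1, ?_, ?_⟩
        · obtain ⟨t, ht⟩ := card_pos.1 hcard'
          obtain ⟨ht1, ht2, ht3⟩ := mem_filter.1 ht
          obtain ⟨h1, h2, h3, h4⟩ := hT t ht1
          rw [Nat.even_iff]
          rcases ht3.eq_two_or_odd with h5 | h5
          · omega
          · omega
        · have hsub : (#{t ∈ T | (a t + h).Prime ∧ (b t + h).Prime} : ℝ) ≤
              #{t ∈ K | (a t + h).Prime ∧ (b t + h).Prime} := by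
            exact_mod_cast card_le_card (filter_subset_filter _ hTK)
          refine le_trans ?_ (hh.2.trans hsub)
          have hLp : 0 < L := by linarith
          have hLHp : 0 < LH := by linarith
          calc min (c / 2 ^ M) (c / 16) * #K / L ^ 2 ≤ (c / 16) * (4 * #T) / L ^ 2 := by
                gcongr
                exact min_le_right _ _
            _ = c * #T / (2 * L) ^ 2 := by ring
            _ ≤ c * #T / LH ^ 2 := by gcongr

/-- **The same shift in both conditions.** For every `A` there are `c > 0`, `D` and `n₀` such that for EVERY `n ≥ n₀`,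
all `H` with `p_{p_n} ≤ H ≤ n log ^ A n`, all even `x`, `y` with `p_n + x ≤ H` and `p_{p_n} + y ≤ H` (for example
`x = y = 0`) and ALL sets `K` of at least `n / log ^ A n` integers `0 < k < n`: for at least `c H / (log log log n) ^ D`
even numbers `h ≤ H` both `p_k + (x + h)` and `p_{p_m} + (y + h)`, `m = n - k`, are prime for at least `c #K / log ^ 2 n`
elements `k` of `K`. -/
theorem result (A : ℕ) : ∃ (c : ℝ) (D n₀ : ℕ), 0 < c ∧ ∀ n : ℕ, n₀ ≤ n → ∀ H : ℕ, (H : ℝ) ≤ n * Real.log n ^ A →
    ∀ x y : ℕ, Even x → Even y → p n + x ≤ H → p (p n) + y ≤ H →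
    ∀ K : Finset ℕ, K ⊆ Ioo 0 n → (n : ℝ) ≤ K.card * Real.log n ^ A →
      c * H / Real.log (Real.log (Real.log n)) ^ D ≤
        (((Icc 1 H).filter fun h => Even h ∧
          c * K.card / Real.log n ^ 2 ≤ ((Good n K (x + h) (y + h)).card : ℝ)).card : ℝ) := by
  classical
  obtain ⟨c, hc, D, hmain⟩ := core A
  obtain ⟨n₀, hn₀⟩ := eventually_atTop.1 (hmain.and (ev A))
  refine ⟨c, D, n₀, hc, ?_⟩
  intro n hn H hHn x y hx hy hxH hyH K hK hKn
  obtain ⟨hmain, h8, -, -, hA8⟩ := hn₀ n hn
  rw [p_eq] at hxH hyH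
  have hL0 : (0 : ℝ) < Real.log n := by linarith
  have hnH : n ≤ H := (le_P n).trans ((Nat.le_add_right _ _).trans hxH)
  have hK8 : 8 ≤ #K := by
    have h1 : 8 * Real.log n ^ A ≤ #K * Real.log n ^ A := hA8.trans hKn
    have h2 : (8 : ℝ) ≤ #K := le_of_mul_le_mul_right h1 (by positivity)
    exact_mod_cast h2
  have hx2 : x % 2 = 0 := Nat.even_iff.1 hx
  have hy2 : y % 2 = 0 := Nat.even_iff.1 hy
  set a : ℕ → ℕ := fun k => P k + x with ha
  set b : ℕ → ℕ := fun k => P (P (n - k)) + y with hb
  set K' := K.filter (fun k => 2 ≤ k) with hK'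
  have hmem : ∀ k ∈ K', 2 ≤ k ∧ k < n := by
    intro k hk
    obtain ⟨h1, h2⟩ := mem_filter.1 hk
    exact ⟨h2, (mem_Ioo.1 (hK h1)).2⟩
  have hP2 : ∀ m, 1 ≤ m → 2 ≤ P m := fun m _ => (P_prime m).two_le
  have hodd : ∀ k ∈ K', a k % 2 = 1 ∧ b k % 2 = 1 := by
    intro k hk
    obtain ⟨h1, h2⟩ := hmem k hk
    have h3 := (P_odd h1).2
    have h4 := (P_odd (hP2 (n - k) (by omega))).2
    simp only [ha, hb]
    omega
  have hbound : ∀ k ∈ K', a k ≤ H ∧ b k ≤ H := by
    intro k hk
    obtain ⟨h1, h2⟩ := hmem k hk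
    have h3 := P_mono (show k ≤ n by omega)
    have h4 := P_mono (P_mono (show n - k ≤ n by omega))
    simp only [ha, hb]
    omega
  have haS : ∀ k ∈ K', ∀ k' ∈ K', k < k' → a k < a k' ∧ b k' < b k := by
    intro k hk k' hk' hkk
    obtain ⟨h1, h2⟩ := hmem k hk
    obtain ⟨h3, h4⟩ := hmem k' hk'
    have h5 := P_strict (by omega) hkk
    have h6 : P (n - k') < P (n - k) := P_strict (by omega) (by omega)
    have h7 : P (P (n - k')) < P (P (n - k)) := P_strict (by have := hP2 (n - k') (by omega); omega) h6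
    simp only [ha, hb]
    omega
  have hinja : Set.InjOn a K' := by
    intro k hk k' hk' e
    rcases lt_trichotomy k k' with h | h | h
    · have := haS k hk k' hk' h
      omega
    · exact h
    · have := haS k' hk' k hk h
      omega
  have hinjb : Set.InjOn b K' := by
    intro k hk k' hk' e
    rcases lt_trichotomy k k' with h | h | h
    · have := haS k hk k' hk' h
      omega
    · exact h
    · have := haS k' hk' k hk h
      omega
  set K1 := K'.filter (fun k => a k < b k) with hK1
  set K2 := K'.filter (fun k => b k < a k) with hK2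
  have hcount : #K ≤ #K1 + #K2 + 2 := by
    have hsub : K ⊆ (K1 ∪ K2) ∪ (K.filter (fun k => ¬ 2 ≤ k) ∪ K'.filter (fun k => a k = b k)) := by
      intro k hk
      simp only [hK1, hK2, hK', mem_union, mem_filter]
      rcases lt_trichotomy (a k) (b k) with h | h | h
      all_goals by_cases h2 : 2 ≤ k
      all_goals simp [hk, h, h2]
    have h1 : #(K.filter (fun k => ¬ 2 ≤ k)) ≤ 1 := by
      apply card_le_one.2
      intro k hk k' hk'
      obtain ⟨e1, e2⟩ := mem_filter.1 hk
      obtain ⟨e3, e4⟩ := mem_filter.1 hk'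
      have e5 := mem_Ioo.1 (hK e1)
      have e6 := mem_Ioo.1 (hK e3)
      omega
    have h2 : #(K'.filter (fun k => a k = b k)) ≤ 1 := by
      apply card_le_one.2
      intro k hk k' hk'
      obtain ⟨e1, e2⟩ := mem_filter.1 hk
      obtain ⟨e3, e4⟩ := mem_filter.1 hk'
      rcases lt_trichotomy k k' with h | h | h
      · have := haS k e1 k' e3 h
        omega
      · exact h
      · have := haS k' e3 k e1 h
        omega
    have h3 := (card_le_card hsub).trans ((card_union_le _ _).trans
      (add_le_add (card_union_le _ _) (card_union_le _ _)))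
    omega
  have hK1K : K1 ⊆ K := (filter_subset _ _).trans (filter_subset _ _)
  have hK2K : K2 ⊆ K := (filter_subset _ _).trans (filter_subset _ _)
  by_cases hcase : #K ≤ 4 * #K1
  · have h1 := hmain H hnH hHn K K1 a b hKn hK1K hcase ?_ ?_ ?_ ?_
    · refine h1.trans ?_
      norm_cast
      apply card_le_card
      intro h hh
      rw [mem_filter] at hh ⊢
      refine ⟨hh.1, hh.2.1, hh.2.2.trans (le_of_eq ?_)⟩
      unfold Good
      rw [p_eq]
      simp only [ha, hb, add_assoc]
    · intro t ht
      obtain ⟨h1, h2⟩ := mem_filter.1 ht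
      exact ⟨(hodd t h1).1, (hodd t h1).2, h2, (hbound t h1).2⟩
    · exact hinja.mono (fun t ht => (mem_filter.1 ht).1)
    · exact hinjb.mono (fun t ht => (mem_filter.1 ht).1)
    · intro k hk k' hk' e
      obtain ⟨e1, e2⟩ := mem_filter.1 hk
      obtain ⟨e3, e4⟩ := mem_filter.1 hk'
      simp only at e
      rcases lt_trichotomy k k' with h | h | h
      · have := haS k e1 k' e3 h
        omega
      · exact h
      · have := haS k' e3 k e1 h
        omega
  · have hcase2 : #K ≤ 4 * #K2 := by omega
    have h1 := hmain H hnH hHn K K2 b a hKn hK2K hcase2 ?_ ?_ ?_ ?_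
    · refine h1.trans ?_
      norm_cast
      apply card_le_card
      intro h hh
      rw [mem_filter] at hh ⊢
      refine ⟨hh.1, hh.2.1, hh.2.2.trans (le_of_eq ?_)⟩
      unfold Good
      rw [p_eq]
      simp only [ha, hb, add_assoc, and_comm]
    · intro t ht
      obtain ⟨h1, h2⟩ := mem_filter.1 ht
      exact ⟨(hodd t h1).2, (hodd t h1).1, h2, (hbound t h1).1⟩
    · exact hinjb.mono (fun t ht => (mem_filter.1 ht).1)
    · exact hinja.mono (fun t ht => (mem_filter.1 ht).1)
    · intro k hk k' hk' e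
      obtain ⟨e1, e2⟩ := mem_filter.1 hk
      obtain ⟨e3, e4⟩ := mem_filter.1 hk'
      simp only at e
      rcases lt_trichotomy k k' with h | h | h
      · have := haS k e1 k' e3 h
        omega
      · exact h
      · have := haS k' e3 k e1 h
        omega

end Pool.Agent.Results.MP_04e9b2_nt.CommonShift
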