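import Mathlib
import Pool.Agent.Helper50.TS.Main
import Pool.Graph.R_pool_sql_team_seeded_64922ed1.X28.SX.StepI

set_option autoImplicit false

/-!
# `n = k + l` for EVERY large `n`, with `p_k, p_{k+1}, …` in a prescribed exact pattern and prescribed prime shifts of `p_{p_l}`

The question asks, for every `n > 2`, for `n = k + l` such that `p_k + 2` and `p_{p_l} + 2` are prime; in particular `p_k` and
`p_{k+1} = p_k + 2` are consecutive primes at a bounded distance. Here `p_k, p_{k+1}, …, p_{k+m-1}` are `m` consecutive primes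
in an exact pattern `t + H`, for EVERY large `n` (the pattern may depend on `n`), and for almost all multiples `M b` of a small
primorial `M` (and more generally almost all vectors of such multiples, and any injective maps of indices `φ_i`, for instance
`φ k = p_{n-k}`) the numbers `p_{p_l} + M b` are prime for the expected proportion of the `k` in any not too sparse set of
the indices of these patterns.

Let `V` be an admissible set with `log |V| ≥ (4 + ε) m + C`.

(1) For every large `n` there is a distribution `μ` on the subsets of `V` with at least `m` elements with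
`Prob (U ⊆ P) ≤ (C m |U| / |V|) ^ |U|` for all `U ⊆ V` with at most `m` elements, all of whose values have this property.

(2) For every large `n`, all but the proportion `2 ^ (1 - T / (C m²))` of the `T`-element subsets `W` of `V` contain an
`m`-element set `H` with this property; so about `m²` elements suffice for almost all `W`.

The proof combines the spread distributions on exact patterns (`Helper50/SP`, hand-in `MP_3ec731_nt.SpreadExactPatterns`) and
the random subsets (`Helper50/TS`, hand-in `MP_3ec731_nt.TypicalSubsets`), in which the number of the realisations is at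
least `x / (log x) ^ B` for every large `x`, with the theorem `stepI` of the library on almost all shifts of the primes with
indices in arbitrary sets of this size.
-/

open Finset Filter

namespace Pool.Agent.Results.MP_04e9b2_nt.ConsecutivePrimePatterns

/-- the `k`-th prime, `p 1 = 2` -/
noncomputable def p (k : ℕ) : ℕ := Nat.nth Nat.Prime (k - 1)

/-- the product of `1 - 1/q` over the primes `q ≤ y` -/
noncomputable def Mertens (y : ℕ) : ℝ := ∏ q ∈ (Icc 1 y).filter Nat.Prime, (1 - 1 / (q : ℝ))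

/-- `V` is admissible: for every prime `q` some translate of `V` contains no multiple of `q`. -/
def Admissible (V : Finset ℕ) : Prop :=
  ∀ q : ℕ, q.Prime → ∃ t : ℕ, ∀ v ∈ V, ¬ q ∣ t + v

/-- the numbers `t + h`, `h ∈ H`, are prime, and there is no other prime in `[t - R, t + max H]` -/
def Consecutive (R : ℕ) (H : Finset ℕ) (t : ℕ) : Prop :=
  (∀ h ∈ H, (t + h).Prime) ∧
    ∀ q : ℕ, q.Prime → t ≤ q + R → (∃ h ∈ H, q ≤ t + h) → ∃ h ∈ H, q = t + h

/-- the indices `0 < k < n` such that `p k` is the smallest element of a set `t + H` of consecutive primes; then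
`p k, p (k + 1), …, p (k + |H| - 1)` are the elements of `t + H`. -/
def Starts (R : ℕ) (H : Finset ℕ) (n : ℕ) : Set ℕ :=
  {k | 0 < k ∧ k < n ∧ ∃ t, Consecutive R H t ∧ ∃ h ∈ H, (∀ h' ∈ H, h ≤ h') ∧ p k = t + h}

open Classical in
/-- The property of the pattern `H`: `Starts R H n` has at least `n / (log n) ^ B` elements, and for every `y` between
`K₀ log log n` and `K₁ log log n`, with `M` the product of the primes `≤ y`, for EVERY subset `J` of `Starts R H n` with at
least `n / (log n) ^ A` elements, all maps `φ_1, …, φ_s` injective on `J` with values in `[1, p n]` (as `k ↦ p (n - k)`) and all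
windows `(a_i, a_i + L_i]` with `M (a_i + L_i) ≤ n`, `M L_i ≥ n / (log n) ^ c`: for all but at most `δ L_1 ⋯ L_s` of the vectors
`b` with `1 ≤ b_i ≤ L_i` there are at least `(1 - δ) |J| / (Mertens y log n) ^ s` elements `k` of `J` for which all the numbers
`p (φ_i k) + M (a_i + b_i)` are primes. -/
def Good (B A c s K₀ K₁ R : ℕ) (δ : ℝ) (n : ℕ) (H : Finset ℕ) : Prop :=
  (n : ℝ) / Real.log n ^ B ≤ (Starts R H n).ncard ∧
  ∀ y : ℕ, K₀ * Real.log (Real.log n) ≤ y → y ≤ K₁ * Real.log (Real.log n) →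
  ∀ J : Finset ℕ, (∀ k ∈ J, k ∈ Starts R H n) → (n : ℝ) / Real.log n ^ A ≤ J.card →
  ∀ φ : Fin s → ℕ → ℕ, (∀ i, Set.InjOn (φ i) J) → (∀ i, ∀ k ∈ J, 1 ≤ φ i k ∧ φ i k ≤ p n) →
  ∀ a L : Fin s → ℕ, (∀ i, primorial y * (a i + L i) ≤ n) →
    (∀ i, (n : ℝ) ≤ primorial y * L i * Real.log n ^ c) →
    (((Fintype.piFinset (fun i => Icc 1 (L i))).filter (fun b : Fin s → ℕ =>
      ((J.filter (fun k => ∀ i, (p (φ i k) + primorial y * (a i + b i)).Prime)).card : ℝ) <
        (1 - δ) * (J.card / (Mertens y * Real.log n) ^ s))).card : ℝ) ≤ δ * ∏ i, (L i : ℝ)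

/-- `μ` is a probability distribution on the subsets of `V` with at least `m` elements such that a random set
contains a given set `U` of at most `m` elements with probability at most `(C m |U| / |V|) ^ |U|`. -/
def Spread (C : ℝ) (m : ℕ) (V : Finset ℕ) (μ : Finset ℕ → ℝ) : Prop :=
  (∀ P, 0 ≤ μ P) ∧ (∀ P, μ P ≠ 0 → P ⊆ V ∧ m ≤ P.card) ∧ ∑ P ∈ V.powerset, μ P = 1 ∧
    ∀ U ⊆ V, U.card ≤ m →
      ∑ P ∈ V.powerset with U ⊆ P, μ P ≤ (C * m * U.card / V.card) ^ U.card

/-- For every `T` at most the proportion `2 ^ (1 - T / (C m²))` of the `T`-element subsets of `V` contains no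
good set with `m` elements, and if `2 m ≤ T ≤ m²`, then the proportion of the `T`-element subsets of `V` which
contain a good set with `m` elements is at least `(T / (C m²)) ^ m`. -/
def Typical (C : ℝ) (m : ℕ) (V : Finset ℕ) (good : Finset ℕ → Prop) : Prop := ∀ T : ℕ,
  (Set.ncard {W : Finset ℕ | W ⊆ V ∧ W.card = T ∧ ¬ ∃ H ⊆ W, H.card = m ∧ good H} : ℝ) ≤
      2 ^ (1 - T / (C * m ^ 2) : ℝ) * (V.card.choose T : ℕ) ∧
    (2 * m ≤ T → T ≤ m ^ 2 → (T / (C * m ^ 2) : ℝ) ^ m * (V.card.choose T : ℕ) ≤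
      Set.ncard {W : Finset ℕ | W ⊆ V ∧ W.card = T ∧ ∃ H ⊆ W, H.card = m ∧ good H})

theorem spread_mono {C C' : ℝ} (hC : 0 ≤ C) (hCC : C ≤ C') {m : ℕ} {V : Finset ℕ} {μ : Finset ℕ → ℝ}
    (h : Pool.Agent.Helper50.SP.Spread C m V μ) : Spread C' m V μ := by
  refine ⟨h.1, h.2.1, h.2.2.1, fun U hU hUm => (h.2.2.2 U hU hUm).trans ?_⟩
  gcongr

theorem typical_mono {C C' : ℝ} (hC : 0 < C) (hCC : C ≤ C') {m : ℕ} (hm : 1 ≤ m) {V : Finset ℕ}
    {g g' : Finset ℕ → Prop} (hg : ∀ H ⊆ V, H.card = m → g H → g' H)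
    (h : Pool.Agent.Helper50.TS.Typical C m V g) : Typical C' m V g' := by
  classical
  intro T
  obtain ⟨h1, h2⟩ := h T
  have hm0 : (0 : ℝ) < m := by exact_mod_cast hm
  have hfin : ∀ Q : Finset ℕ → Prop, {W : Finset ℕ | W ⊆ V ∧ W.card = T ∧ Q W}.Finite := fun Q =>
    (V.powerset.finite_toSet).subset fun W hW => by
      rw [Finset.mem_coe, mem_powerset]
      exact hW.1
  have hTC : (T : ℝ) / (C' * m ^ 2) ≤ T / (C * m ^ 2) := by
    apply div_le_div_of_nonneg_left (Nat.cast_nonneg _) (by positivity)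
    gcongr
  refine ⟨?_, fun h3 h4 => ?_⟩
  · have h5 : (Set.ncard {W : Finset ℕ | W ⊆ V ∧ W.card = T ∧ ¬ ∃ H ⊆ W, H.card = m ∧ g' H} : ℝ) ≤
        Set.ncard {W : Finset ℕ | W ⊆ V ∧ W.card = T ∧ ¬ ∃ H ⊆ W, H.card = m ∧ g H} := by
      rw [Nat.cast_le]
      apply Set.ncard_le_ncard _ (hfin _)
      rintro W ⟨e1, e2, e3⟩
      refine ⟨e1, e2, fun ⟨H, f1, f2, f3⟩ => e3 ⟨H, f1, f2, hg H (f1.trans e1) f2 f3⟩⟩
    refine h5.trans (h1.trans ?_)
    apply mul_le_mul_of_nonneg_right _ (Nat.cast_nonneg _)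
    exact Real.rpow_le_rpow_of_exponent_le (by norm_num) (by linarith)
  · have h5 : (Set.ncard {W : Finset ℕ | W ⊆ V ∧ W.card = T ∧ ∃ H ⊆ W, H.card = m ∧ g H} : ℝ) ≤
        Set.ncard {W : Finset ℕ | W ⊆ V ∧ W.card = T ∧ ∃ H ⊆ W, H.card = m ∧ g' H} := by
      rw [Nat.cast_le]
      apply Set.ncard_le_ncard _ (hfin _)
      rintro W ⟨e1, e2, H, f1, f2, f3⟩
      exact ⟨e1, e2, H, f1, f2, hg H (f1.trans e1) f2 f3⟩
    refine le_trans ?_ ((h2 h3 h4).trans h5)
    apply mul_le_mul_of_nonneg_right _ (Nat.cast_nonneg _)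
    have hC' : 0 < C' := lt_of_lt_of_le hC hCC
    exact pow_le_pow_left₀ (by positivity) hTC m

theorem p_mono {a b : ℕ} (h : a ≤ b) : p a ≤ p b :=
  Nat.nth_monotone Nat.infinite_setOfPred_prime (by omega)

theorem starts_card (R : ℕ) (H : Finset ℕ) (hH : H.Nonempty) (n S : ℕ) (x : ℝ)
    (hS : ∀ h ∈ H, h ≤ S) (hx : x + S < p n) :
    Pool.Agent.Helper50.TS.number 1 0 R H x ≤ (Starts R H n).ncard := by
  classical
  unfold Pool.Agent.Helper50.TS.number
  refine Set.ncard_le_ncard_of_injOn (fun t => Nat.count Nat.Prime (t + H.min' hH) + 1) ?_ ?_ ?_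
  · rintro t ⟨ht, ht2⟩
    obtain ⟨-, h1, h2⟩ := ht2
    have hpr := h1 _ (H.min'_mem hH)
    have hpk : p (Nat.count Nat.Prime (t + H.min' hH) + 1) = t + H.min' hH := by
      unfold p
      rw [Nat.add_sub_cancel]
      exact Nat.nth_count hpr
    refine ⟨Nat.succ_pos _, ?_, t, ⟨h1, h2⟩, H.min' hH, H.min'_mem hH, fun h' hh' => H.min'_le h' hh', hpk⟩
    by_contra hcon
    have h3 := p_mono (not_lt.1 hcon)
    rw [hpk] at h3
    have h4 := hS _ (H.min'_mem hH)
    have h5 : ((t + H.min' hH : ℕ) : ℝ) ≤ x + S := by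
      push_cast
      have : ((H.min' hH : ℕ) : ℝ) ≤ S := by exact_mod_cast h4
      linarith
    have h6 : (p n : ℝ) ≤ ((t + H.min' hH : ℕ) : ℝ) := by exact_mod_cast h3
    linarith
  · rintro t ⟨ht, ht2⟩ t' ⟨ht', ht2'⟩ he
    have h1 := ht2.2.1 _ (H.min'_mem hH)
    have h2 := ht2'.2.1 _ (H.min'_mem hH)
    have h3 : Nat.count Nat.Prime (t + H.min' hH) = Nat.count Nat.Prime (t' + H.min' hH) :=
      Nat.succ_injective he
    have h4 := Nat.nth_count h1
    have h5 := Nat.nth_count h2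
    rw [h3, h5] at h4
    omega
  · exact (Set.finite_Iio n).subset fun k hk => hk.2.1

/-- from the number of the realisations to the property `Good` -/
theorem good_of_number (V : Finset ℕ) (B A c s : ℕ) (δ : ℝ) (hδ : 0 < δ) (hδ1 : δ ≤ 1) :
    ∃ K₀ : ℕ, ∀ K₁ R : ℕ, ∀ᶠ n : ℕ in atTop, ∀ H ⊆ V, H.Nonempty →
      ((p n : ℝ) - (V.sup id : ℕ) - 1) / Real.log ((p n : ℝ) - (V.sup id : ℕ) - 1) ^ B ≤
        Pool.Agent.Helper50.TS.number 1 0 R H ((p n : ℝ) - (V.sup id : ℕ) - 1) →
      ∀ B' : ℕ, B + 1 ≤ B' → Good B' A c s K₀ K₁ R δ n H := by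
  classical
  obtain ⟨S, hS⟩ : ∃ S : ℕ, S = V.sup id := ⟨_, rfl⟩
  rw [← hS]
  obtain ⟨K₀, hK₀⟩ := Pool.Agent.X28.SX.stepI (ι := Fin s) (fun _ => 1) (fun _ => Or.inl rfl) A 5 c δ hδ hδ1
  refine ⟨K₀, fun K₁ R => ?_⟩
  obtain ⟨n1, hn1⟩ := hK₀ K₁
  obtain ⟨n2, hn2⟩ := Pool.Agent.X28.SX.nth_le
  obtain ⟨n3, hn3⟩ := Pool.Agent.X28.SX.nth_nth_le
  have hlog := (Real.tendsto_log_atTop.comp (tendsto_natCast_atTop_atTop (R := ℝ))).eventually
    (eventually_ge_atTop (2 ^ (B + 1) + 1 : ℝ))
  have hsq : ∀ᶠ n : ℕ in atTop, Real.log n ^ 2 ≤ (n : ℝ) := by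
    have h := (isLittleO_log_rpow_rpow_atTop (s := 1) ((2 : ℕ) : ℝ) one_pos).bound one_pos
    filter_upwards [(tendsto_natCast_atTop_atTop (R := ℝ)).eventually h] with X hX
    have hl : 0 ≤ Real.log X := Real.log_natCast_nonneg X
    rw [Real.rpow_natCast, Real.norm_eq_abs, Real.norm_eq_abs, one_mul,
      abs_of_nonneg (by positivity), abs_of_nonneg (by positivity), Real.rpow_one] at hX
    exact hX
  filter_upwards [eventually_ge_atTop n1, eventually_ge_atTop n2, eventually_ge_atTop n3, hlog, hsq,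
    eventually_ge_atTop (2 * S + 4)] with n b1 b2 b3 b4 b5 b6
  intro H hHV hHne hnum B' hB'
  have b4' : (2 : ℝ) ^ (B + 1) + 1 ≤ Real.log n := b4
  have h2B : (1 : ℝ) ≤ 2 ^ (B + 1) := one_le_pow₀ (by norm_num)
  have hL0 : 0 < Real.log n := by linarith
  have hL1 : 1 ≤ Real.log n := by linarith
  have hn0 : (0 : ℝ) < n := by
    have : 0 < n := by omega
    exact_mod_cast this
  have hpn : n + 1 ≤ p n := by
    have := Nat.add_two_le_nth_prime (n - 1)
    unfold p
    omega
  have hpn' : (n : ℝ) + 1 ≤ p n := by exact_mod_cast hpn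
  have hSn : (2 * S + 4 : ℝ) ≤ n := by exact_mod_cast b6
  refine ⟨?_, ?_⟩
  · -- the number of the indices
    obtain ⟨x, hx⟩ : ∃ x : ℝ, x = (p n : ℝ) - S - 1 := ⟨_, rfl⟩
    rw [← hx] at hnum
    have hx1 : (n : ℝ) / 2 ≤ x := by rw [hx]; linarith
    have hx2 : 2 ≤ x := by linarith
    have hpn2 : (p n : ℝ) ≤ n * Real.log n ^ 2 := hn2 n b2 n (by omega)
    have hx3 : Real.log x ≤ 2 * Real.log n := by
      have h1 : x ≤ (n : ℝ) ^ 2 := by
        have : (p n : ℝ) ≤ n * n := hpn2.trans (mul_le_mul_of_nonneg_left b5 hn0.le)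
        have hS0 : (0 : ℝ) ≤ S := Nat.cast_nonneg _
        rw [hx]
        nlinarith
      have h2 := Real.log_le_log (by linarith) h1
      rw [Real.log_pow] at h2
      exact_mod_cast h2
    have hx4 : 0 < Real.log x := Real.log_pos (by linarith)
    have hstart := starts_card R H hHne n S x (fun h hh => by
      rw [hS]
      exact le_sup (f := id) (hHV hh)) (by rw [hx]; linarith)
    have h3 : (n : ℝ) / Real.log n ^ B' ≤ x / Real.log x ^ B := by
      calc (n : ℝ) / Real.log n ^ B' ≤ n / Real.log n ^ (B + 1) :=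
            div_le_div_of_nonneg_left hn0.le (by positivity) (pow_le_pow_right₀ hL1 hB')
        _ ≤ (n / 2) / (2 * Real.log n) ^ B := by
            rw [div_le_div_iff₀ (by positivity) (by positivity), mul_pow, pow_succ]
            have h4 : (n : ℝ) * (2 ^ B * Real.log n ^ B) * 2 ≤ n * (Real.log n ^ B * Real.log n) := by
              have h5 : (2 : ℝ) ^ B * 2 ≤ Real.log n := by
                rw [pow_succ] at b4'
                linarith
              calc (n : ℝ) * (2 ^ B * Real.log n ^ B) * 2 = n * (Real.log n ^ B * (2 ^ B * 2)) := by ring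
                _ ≤ _ := by gcongr
            linarith
        _ ≤ x / Real.log x ^ B := by
            apply div_le_div₀ (by linarith) hx1 (by positivity)
            exact pow_le_pow_left₀ hx4.le hx3 B
    exact (h3.trans hnum).trans (by exact_mod_cast hstart)
  · intro y hy1 hy2 J hJ hJc φ hφ hφ' a L ha hL
    have hd : (n : ℝ) ≤ J.card * Real.log n ^ A := by
      rwa [div_le_iff₀ (by positivity)] at hJc
    have key := hn1 n b1 y hy1 hy2 J hd (fun i k => p (φ i k)) (fun i k hk k' hk' heq => by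
        have g3 := Pool.Agent.X28.SX.nth_inj' (hφ' i k hk).1 (hφ' i k' hk').1 heq
        exact hφ i hk hk' g3)
      (fun i k hk => ⟨Nat.prime_nth_prime _, by
        have h1 : p (φ i k) ≤ p (p n) := p_mono (hφ' i k hk).2
        have h2 : (p (p n) : ℝ) ≤ n * Real.log n ^ 5 := hn3 n b3 n (by omega)
        exact le_trans (by exact_mod_cast h1) h2⟩)
      a L (fun i => by rw [pow_one]; exact ha i) (fun i => by rw [pow_one]; exact hL i)
    simp only [prod_const, card_univ, Fintype.card_fin] at key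
    have hVz : Pool.Agent.H373R2.T7.Vz y = Mertens y := rfl
    rw [hVz] at key
    have e1' : Mertens y * (((1 : ℕ) : ℝ) * Real.log n) = Mertens y * Real.log n := by push_cast; ring
    rw [e1'] at key
    refine le_trans (le_of_eq ?_) key
    simp only [pow_one]

/-- **Consecutive primes with indices in the decompositions of EVERY large `n`.** For every `ε > 0` there is `C` such that for
every `m ≥ 1` there is `B` such that for every admissible `V` with `log |V| ≥ (4 + ε) m + C` and all `s`, `A`, `c`, `δ` there is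
`K₀` such that for all `K₁`, `R` and every sufficiently large `n`:
(1) some distribution `μ` as in `Spread` on the subsets of `V` has only values with the property `Good`;
(2) almost all subsets of `V` with about `m²` elements contain an `m`-element set with the property `Good` (`Typical`). -/
theorem result (ε : ℝ) (hε : 0 < ε) : ∃ C : ℝ, 0 < C ∧ ∀ m : ℕ, 1 ≤ m → ∃ B : ℕ, ∀ V : Finset ℕ,
    (4 + ε) * m + C ≤ Real.log V.card → Admissible V →
    ∀ (s A c : ℕ) (δ : ℝ), 0 < δ → δ ≤ 1 → ∃ K₀ : ℕ, ∀ K₁ R : ℕ, ∀ᶠ n : ℕ in atTop,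
      (∃ μ : Finset ℕ → ℝ, Spread C m V μ ∧ ∀ P, μ P ≠ 0 → Good B A c s K₀ K₁ R δ n P) ∧
      Typical C m V (Good B A c s K₀ K₁ R δ n) := by
  classical
  obtain ⟨C₁, hC₁, h1⟩ := Pool.Agent.Helper50.SP.main ε hε
  obtain ⟨C₂, hC₂, h2⟩ := Pool.Agent.Helper50.TS.final ε hε
  refine ⟨max C₁ C₂, lt_max_of_lt_left hC₁, fun m hm => ?_⟩
  obtain ⟨B₁, hB₁⟩ := h1 m hm
  obtain ⟨B₂, hB₂⟩ := h2 m hm
  refine ⟨max B₁ B₂ + 1, fun V hV hadm s A c δ hδ hδ1 => ?_⟩
  have hV1 : (4 + ε) * m + C₁ ≤ Real.log V.card :=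
    le_trans (by linarith [le_max_left C₁ C₂]) hV
  have hV2 : (4 + ε) * m + C₂ ≤ Real.log V.card :=
    le_trans (by linarith [le_max_right C₁ C₂]) hV
  obtain ⟨k1, hk1⟩ := good_of_number V B₁ A c s δ hδ hδ1
  obtain ⟨k2, hk2⟩ := good_of_number V B₂ A c s δ hδ hδ1
  refine ⟨max k1 k2, fun K₁ R => ?_⟩
  have hmono : ∀ k n H B', k ≤ max k1 k2 → Good B' A c s k K₁ R δ n H →
      Real.exp 1 ≤ n → Good B' A c s (max k1 k2) K₁ R δ n H := by
    intro k n H B' hk hG hn
    refine ⟨hG.1, fun y hy => hG.2 y (le_trans ?_ hy)⟩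
    have h3 : 0 ≤ Real.log (Real.log n) := by
      apply Real.log_nonneg
      have := Real.log_le_log (Real.exp_pos 1) hn
      rwa [Real.log_exp] at this
    have h4 : (k : ℝ) ≤ (max k1 k2 : ℕ) := by exact_mod_cast hk
    exact mul_le_mul_of_nonneg_right h4 h3
  have hten : Tendsto (fun n : ℕ => (p n : ℝ) - (V.sup id : ℕ) - 1) atTop atTop := by
    have h3 : Tendsto (fun n : ℕ => (n : ℝ) + (-((V.sup id : ℕ) : ℝ) - 1)) atTop atTop :=
      tendsto_atTop_add_const_right _ _ tendsto_natCast_atTop_atTop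
    apply tendsto_atTop_mono _ h3
    intro n
    have h4 : n ≤ p n := by
      have := Nat.add_two_le_nth_prime (n - 1)
      unfold p
      omega
    have h5 : (n : ℝ) ≤ p n := by exact_mod_cast h4
    linarith
  have hcop : ∀ v ∈ V, Nat.Coprime (0 + v) 1 := fun v _ => Nat.coprime_one_right _
  have hexp : ∀ᶠ n : ℕ in atTop, Real.exp 1 ≤ (n : ℝ) :=
    (tendsto_natCast_atTop_atTop (R := ℝ)).eventually (eventually_ge_atTop _)
  filter_upwards [hk1 K₁ R, hk2 K₁ R, hexp,
    hten.eventually ((hB₁ V hV1 hadm 1 0 le_rfl hcop).1 R),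
    hten.eventually ((hB₂ V hV2 hadm 1 0 le_rfl hcop).1 R)] with n g1 g2 g3 g4 g5
  constructor
  · obtain ⟨μ, hμ, hμ2⟩ := g4
    refine ⟨μ, spread_mono hC₁.le (le_max_left _ _) hμ, fun P hP => ?_⟩
    obtain ⟨hPV, hPm⟩ := hμ.2.1 P hP
    have hPne : P.Nonempty := by
      rw [← card_pos]
      omega
    apply hmono k1 n P _ (le_max_left _ _) _ g3
    refine g1 P hPV hPne ((hμ2 P hP).trans ?_) _ (by omega)
    exact_mod_cast Pool.Agent.Helper50.TS.count_le_number (Subset.refl P) (fun _ _ q hq _ => hq) _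
  · refine typical_mono hC₂ (le_max_right _ _) hm (fun H hHV hHm hH => ?_) g5
    have hHne : H.Nonempty := by
      rw [← card_pos]
      omega
    exact hmono k2 n H _ (le_max_right _ _) (g2 H hHV hHne hH _ (by omega)) g3

end Pool.Agent.Results.MP_04e9b2_nt.ConsecutivePrimePatterns
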