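import Pool.Agent.Helper51.UG.Idx
import Pool.Graph.R_pool_sql_team_seeded_843ab51a.Helper29.BE.Dens

set_option autoImplicit false

/-!
# `n = k + m`: the structure of the set of the shifts `h` for which `p_k + h` and `p_{p_m} + h` are both prime

The question asks, for every `n > 2`, for a decomposition `n = k + m` for which `2` is such a shift. Here we consider EVERY
large `n` and almost every decomposition `n = k + m` (all but `n / log ^ U n`). The set of the shifts `h` for which both
`p_k + h` and `p_{p_m} + h` are prime has the expected order of magnitude in every long window, and it is full of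
homothetic copies of every finite pattern, in a strong sense: for an ARBITRARY set `𝒜` of such shifts in the window, almost
all of its members `h` (all but a proportion `δ` of the number of all such shifts) have `h + d T` contained in `𝒜` for at
least `D ^ (1 - ε)` of the `d ≤ D`, for EVERY finite set `T` of at most `m` integers in `[-M, M]`, uniformly up to
`D M = X ^ (1 - ε)`, `X` the length of the window. For instance there are arithmetic progressions of common shifts of every
length through almost every common shift.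
-/

namespace Pool.Agent.Results.MP_04e9b2_nt.PatternsOfShifts

open Finset Filter
open Pool.Agent.Helper29.BE (P P_prime P_mono P_inj P_odd P_strict le_P tLog)
open Pool.Agent.Helper51.UG (CS GoodPair cps)

/-- The `j`-th prime: `p 1 = 2`, `p 2 = 3`, `p 3 = 5`, and so on. -/
noncomputable def p (j : ℕ) : ℕ := Nat.nth Nat.Prime (j - 1)

/-- The shifts `h` with `v < h ≤ v + X` for which `p_k + x + h` and `p_{p_m} + y + h`, `m = n - k`, are both prime. -/
def Shifts (n k x y v X : ℕ) : Set ℕ :=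
  {h | v < h ∧ h ≤ v + X ∧ (p k + x + h).Prime ∧ (p (p (n - k)) + y + h).Prime}

/-- The number of the `1 ≤ d ≤ D` for which all the numbers `h + d t`, `t ∈ T`, belong to `𝒜`. -/
noncomputable def scales (𝒜 : Set ℕ) (T : Finset ℤ) (D h : ℕ) : ℕ :=
  {d : ℕ | 1 ≤ d ∧ d ≤ D ∧ ∀ t ∈ T, ∃ g ∈ 𝒜, (g : ℤ) = h + d * t}.ncard

/-- In all windows `(v, v + X]` within `(0, H]` of length at least `H / log ^ A n` the shifts of `Shifts n k x y v X` have
the expected order of magnitude, and for every set `𝒜` of them and every set `T` of at most `m` integers in `[-M, M]` all but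
`δ #(Shifts n k x y v X)` members `h` of `𝒜` have at least `D ^ (1 - ε)` numbers `d ≤ D` with `h + d T` contained in `𝒜`. -/
def Rich (c : ℝ) (A m : ℕ) (ε δ : ℝ) (n k x y H : ℕ) : Prop :=
  ∀ v X : ℕ, v + X ≤ H → (H : ℝ) / Real.log n ^ A ≤ X →
    c * (X / Real.log n ^ 2) ≤ ((Shifts n k x y v X).ncard : ℝ) ∧
    ∀ M D : ℕ, 1 ≤ M → (X : ℝ) ^ ε ≤ D → (D : ℝ) * M ≤ (X : ℝ) ^ (1 - ε) →
      ∀ 𝒜 ⊆ Shifts n k x y v X, ∀ T : Finset ℤ, T.card ≤ m → (∀ t ∈ T, |t| ≤ M) →
        ({h : ℕ | h ∈ 𝒜 ∧ (scales 𝒜 T D h : ℝ) < (D : ℝ) ^ (1 - ε)}.ncard : ℝ) ≤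
          δ * ((Shifts n k x y v X).ncard : ℝ)

lemma p_eq : p = P := rfl

/-- **Common shifts for almost every decomposition of EVERY large `n`.** -/
theorem result : ∃ c : ℝ, 0 < c ∧ ∀ (A U m : ℕ) (ε δ : ℝ), 0 < ε → ε ≤ 1 / 2 → 0 < δ →
    ∃ n₀ : ℕ, ∀ n : ℕ, n₀ ≤ n → ∀ H : ℕ, (H : ℝ) ≤ n * Real.log n ^ A →
    ∀ x y : ℕ, Even x → Even y → p n + x ≤ H → p (p n) + y ≤ H →
      ({k : ℕ | 0 < k ∧ k < n ∧ ¬ Rich c A m ε δ n k x y H}.ncard : ℝ) ≤ n / Real.log n ^ U := by
  classical
  obtain ⟨c, hc, hfam⟩ := Pool.Agent.Helper51.UG.shiftFam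
  refine ⟨c / 4, by positivity, fun A U m ε δ hε hε1 hδ => ?_⟩
  obtain ⟨N₀, h0⟩ := hfam A (A + 1) (U + 1) m ε δ hε hε1 hδ
  obtain ⟨n₁, h1⟩ := Pool.Agent.H373R2.T7.ev_L' 8
  obtain ⟨n₂, h2⟩ := Pool.Agent.Helper51.UG.ev_logpow 1 A 1 (by norm_num)
  obtain ⟨n₃, h3⟩ := Pool.Agent.Helper51.UG.ev_logpow 16 U 1 (by norm_num)
  refine ⟨max (max N₀ n₁) (max (max n₂ n₃) 8), fun n hn H hHn x y hx hy hxH hyH => ?_⟩
  have g0 : N₀ ≤ n := ((le_max_left _ _).trans (le_max_left _ _)).trans hn
  have g1 := h1 n (((le_max_right _ _).trans (le_max_left _ _)).trans hn)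
  have g2 := h2 n ((((le_max_left _ _).trans (le_max_left _ _)).trans (le_max_right _ _)).trans hn)
  have g3 := h3 n ((((le_max_right _ _).trans (le_max_left _ _)).trans (le_max_right _ _)).trans hn)
  have g4 : 8 ≤ n := ((le_max_right _ _).trans (le_max_right _ _)).trans hn
  rw [Real.rpow_one] at g2 g3
  rw [one_mul] at g2
  rw [p_eq] at hxH hyH
  have hnH : n ≤ H := (le_P n).trans ((Nat.le_add_right _ _).trans hxH)
  have hn0 : (0 : ℝ) < n := by
    have : 0 < n := by omega
    exact_mod_cast this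
  have hnH' : (n : ℝ) ≤ H := by exact_mod_cast hnH
  have hH0 : (0 : ℝ) < H := by linarith
  set L := Real.log (n : ℝ) with hL
  have hL0 : 0 < L := by linarith
  have hlogle : L ≤ Real.log H := Real.log_le_log hn0 hnH'
  have hHsq : (H : ℝ) ≤ (n : ℝ) ^ 2 := by
    calc (H : ℝ) ≤ n * L ^ A := hHn
      _ ≤ n * n := by gcongr
      _ = (n : ℝ) ^ 2 := by ring
  have hlog2 : Real.log H ≤ 2 * L := by
    have h1 := Real.log_le_log hH0 hHsq
    rw [Real.log_pow] at h1
    exact_mod_cast h1
  have hx2 : x % 2 = 0 := Nat.even_iff.1 hx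
  have hy2 : y % 2 = 0 := Nat.even_iff.1 hy
  set a : ℕ → ℕ := fun k => P k + x with ha
  set b : ℕ → ℕ := fun k => P (P (n - k)) + y with hb
  have hP2 : ∀ m, 1 ≤ m → 2 ≤ P m := fun m _ => (P_prime m).two_le
  set K' : Finset ℕ := Ioo 1 n with hK'
  have hmem : ∀ k ∈ K', 2 ≤ k ∧ k < n := by
    intro k hk
    have := mem_Ioo.1 hk
    omega
  have haS : ∀ k ∈ K', ∀ k' ∈ K', k < k' → a k < a k' ∧ b k' < b k := by
    intro k hk k' hk' hkk
    obtain ⟨h1, h2⟩ := hmem k hk
    obtain ⟨h3, h4⟩ := hmem k' hk'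
    have h5 := P_strict (by omega) hkk
    have h6 : P (n - k') < P (n - k) := P_strict (by omega) (by omega)
    have h7 : P (P (n - k')) < P (P (n - k)) :=
      P_strict (by have := hP2 (n - k') (by omega); omega) h6
    simp only [ha, hb]
    omega
  set K : Finset ℕ := K'.filter (fun k => a k ≠ b k) with hK
  have hcount : n ≤ K.card + 3 := by
    have h1 : (K'.filter (fun k => ¬ a k ≠ b k)).card ≤ 1 := by
      apply card_le_one.2
      intro k hk k' hk'
      obtain ⟨e1, e2⟩ := mem_filter.1 hk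
      obtain ⟨e3, e4⟩ := mem_filter.1 hk'
      push Not at e2 e4
      rcases lt_trichotomy k k' with h | h | h
      · have := haS k e1 k' e3 h
        omega
      · exact h
      · have := haS k' e3 k e1 h
        omega
    have h2 := card_filter_add_card_filter_not (s := K') (fun k => a k ≠ b k)
    have h3 : K'.card = n - 1 - 1 := by rw [hK', Nat.card_Ioo]
    have h4 : K.card = (K'.filter (fun k => a k ≠ b k)).card := rfl
    omega
  have hKn : K.card ≤ n := by
    have h2 := card_le_card (filter_subset (fun k => a k ≠ b k) K')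
    have h3 : K'.card = n - 1 - 1 := by rw [hK', Nat.card_Ioo]
    have h4 : K.card = (K'.filter (fun k => a k ≠ b k)).card := rfl
    omega
  have hKK : ∀ k ∈ K, a k ≤ H ∧ b k ≤ H ∧ a k ≠ b k ∧ Even ((b k : ℤ) - a k) := by
    intro k hk
    obtain ⟨h1, h2⟩ := mem_filter.1 hk
    obtain ⟨h3, h4⟩ := hmem k h1
    have h5 := P_mono (show k ≤ n by omega)
    have h6 := P_mono (P_mono (show n - k ≤ n by omega))
    have h7 := (P_odd h3).2
    have h8 := (P_odd (hP2 (n - k) (by omega))).2
    refine ⟨?_, ?_, h2, ?_⟩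
    · simp only [ha]
      omega
    · simp only [hb]
      omega
    · rw [Int.even_iff]
      simp only [ha, hb]
      push_cast
      omega
  have hinj : Set.InjOn (fun k => (b k : ℤ) - a k) K := by
    intro k hk k' hk' e
    obtain ⟨e1, e2⟩ := mem_filter.1 hk
    obtain ⟨e3, e4⟩ := mem_filter.1 hk'
    simp only at e
    rcases lt_trichotomy k k' with h | h | h
    · have := haS k e1 k' e3 h
      omega
    · exact h
    · have := haS k' e3 k e1 h
      omega
  have hcR : (n : ℝ) ≤ K.card + 3 := by exact_mod_cast hcount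
  have hHK : (H : ℝ) ≤ Real.log H ^ (A + 1) * K.card := by
    have e1 : (n : ℝ) ≤ L * K.card := by
      have e2 : (8 : ℝ) ≤ n := by exact_mod_cast g4
      nlinarith
    calc (H : ℝ) ≤ n * L ^ A := hHn
      _ ≤ (L * K.card) * L ^ A := by gcongr
      _ = L ^ (A + 1) * K.card := by ring
      _ ≤ Real.log H ^ (A + 1) * K.card := by gcongr
  set E : Finset ℕ := K.filter (fun k => ¬ GoodPair c A m ε δ H (a k) (b k)) with hE
  have h4 := h0 H (g0.trans hnH) K a b hKK hinj hHK E (filter_subset _ _)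
    (fun k hk => (mem_filter.1 hk).2)
  -- the exceptions
  have hsub : {k : ℕ | 0 < k ∧ k < n ∧ ¬ Rich (c / 4) A m ε δ n k x y H} ⊆
      ((E ∪ ({1} ∪ K'.filter (fun k => ¬ a k ≠ b k)) : Finset ℕ) : Set ℕ) := by
    rintro k ⟨hk0, hkn, hk⟩
    rw [Finset.mem_coe, mem_union, mem_union, mem_singleton]
    by_cases hk1 : k = 1
    · exact Or.inr (Or.inl hk1)
    have hkK' : k ∈ K' := mem_Ioo.2 ⟨by omega, hkn⟩
    by_cases hab : a k ≠ b k
    · left
      rw [hE, mem_filter]
      refine ⟨mem_filter.2 ⟨hkK', hab⟩, fun hG => hk ?_⟩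
      intro v X hvX hX
      obtain ⟨e1, e2⟩ := hG v X hvX (le_trans (by gcongr) hX)
      have e3 : CS (a k) (b k) v X = Shifts n k x y v X := by
        unfold CS Shifts
        rw [p_eq]
      rw [e3] at e1 e2
      refine ⟨le_trans ?_ e1, e2⟩
      have e4 : (X : ℝ) / (2 * L) ^ 2 ≤ X / Real.log H ^ 2 := by
        apply div_le_div_of_nonneg_left (Nat.cast_nonneg _)
        · have : 0 < Real.log H := by linarith
          positivity
        · exact pow_le_pow_left₀ (by linarith) hlog2 2
      calc c / 4 * (X / L ^ 2) = c * (X / (2 * L) ^ 2) := by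
            field_simp
            ring
        _ ≤ c * (X / Real.log H ^ 2) := mul_le_mul_of_nonneg_left e4 hc.le
    · exact Or.inr (Or.inr (mem_filter.2 ⟨hkK', hab⟩))
  have h5 := Set.ncard_le_ncard hsub (Finset.finite_toSet _)
  rw [Set.ncard_coe_finset] at h5
  have h6 : (E ∪ ({1} ∪ K'.filter (fun k => ¬ a k ≠ b k)) : Finset ℕ).card ≤ E.card + 2 := by
    have h1 : (K'.filter (fun k => ¬ a k ≠ b k)).card ≤ 1 := by
      apply card_le_one.2
      intro k hk k' hk'
      obtain ⟨e1, e2⟩ := mem_filter.1 hk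
      obtain ⟨e3, e4⟩ := mem_filter.1 hk'
      push Not at e2 e4
      rcases lt_trichotomy k k' with h | h | h
      · have := haS k e1 k' e3 h
        omega
      · exact h
      · have := haS k' e3 k e1 h
        omega
    have h2 := card_union_le E ({1} ∪ K'.filter (fun k => ¬ a k ≠ b k))
    have h3 := card_union_le ({1} : Finset ℕ) (K'.filter (fun k => ¬ a k ≠ b k))
    rw [card_singleton] at h3
    omega
  have h7 : (({k : ℕ | 0 < k ∧ k < n ∧ ¬ Rich (c / 4) A m ε δ n k x y H}.ncard : ℕ) : ℝ) ≤ E.card + 2 := by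
    exact_mod_cast h5.trans h6
  have h8 : (E.card : ℝ) ≤ n / L ^ U / 8 := by
    refine h4.trans ?_
    have e1 : (K.card : ℝ) ≤ n := by exact_mod_cast hKn
    calc (K.card : ℝ) / Real.log H ^ (U + 1) ≤ n / L ^ (U + 1) := by gcongr
      _ = n / L ^ U / L := by
          rw [pow_succ]
          field_simp
      _ ≤ n / L ^ U / 8 := by gcongr
  have h9 : (2 : ℝ) ≤ n / L ^ U / 8 := by
    rw [div_div, le_div_iff₀ (by positivity)]
    linarith
  have h10 : 0 ≤ (n : ℝ) / L ^ U := by positivity
  linarith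

end Pool.Agent.Results.MP_04e9b2_nt.PatternsOfShifts
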